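import Pool.Agent.H71.CQ.Basic

/-!
# Free labels exist between infinite sorts
-/

set_option autoImplicit false

open Set

namespace Pool.Agent.H72.CQ

open Pool.Agent.H71.CQ

theorem pf_FRE (hDEG : T_DEG) : T_FRE := by
  classical
  intro L N hN hfin e he p q hP hQ
  have hdeg : ∀ x x' : ℕ, e x x = e x' x' → ∀ l, ¬ Op N l →
      {y | e x y = l}.Finite ∧ {y | e x y = l}.encard = {y | e x' y = l}.encard :=
    fun x x' hx l hl => hDEG L N hN ℕ ℕ e e he he x x' hx l hl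
  set Λ : Set L := {l | ¬ Op N l ∧ ∃ x y, x ≠ y ∧ e x x = p ∧ e y y = q ∧ e x y = l} with hΛ
  set Λ' : Set L := {l | ¬ Op N l ∧ ∃ x y, x ≠ y ∧ e x x = q ∧ e y y = p ∧ e x y = l} with hΛ'
  have hΛf : Λ.Finite := hfin e he p q hP hQ
  have hΛf' : Λ'.Finite := hfin e he q p hQ hP
  -- the closed neighbours of a point of the first sort
  have hC : ∀ x ∈ Srt e p, {y | y ∈ Srt e q ∧ y ≠ x ∧ ¬ Op N (e x y)}.Finite := by
    intro x hx
    refine (hΛf.biUnion (t := fun l => {y | e x y = l}) fun l hl =>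
      (hdeg x x rfl l hl.1).1).subset ?_
    rintro y ⟨hy, hyx, hop⟩
    rw [mem_iUnion₂]
    exact ⟨e x y, ⟨hop, x, y, hyx.symm, hx, hy, rfl⟩, rfl⟩
  obtain ⟨y0, hy0⟩ := hQ.nonempty
  set b : ℕ := ∑ l ∈ hΛf'.toFinset, {x | e y0 x = l}.ncard with hb
  have hD : ∀ y ∈ Srt e q, {x | x ∈ Srt e p ∧ x ≠ y ∧ ¬ Op N (e y x)}.Finite ∧
      {x | x ∈ Srt e p ∧ x ≠ y ∧ ¬ Op N (e y x)}.ncard ≤ b := by
    intro y hy
    have hyy : e y y = e y0 y0 := by
      have h1 : e y y = q := hy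
      have h2 : e y0 y0 = q := hy0
      rw [h1, h2]
    have hfl : ∀ l ∈ hΛf'.toFinset, {x | e y x = l}.Finite := by
      intro l hl
      rw [Finite.mem_toFinset] at hl
      exact (hdeg y y rfl l hl.1).1
    have hsub : {x | x ∈ Srt e p ∧ x ≠ y ∧ ¬ Op N (e y x)} ⊆
        ⋃ l ∈ hΛf'.toFinset, {x | e y x = l} := by
      rintro x ⟨hx, hxy, hop⟩
      rw [mem_iUnion₂]
      refine ⟨e y x, ?_, rfl⟩
      rw [Finite.mem_toFinset]
      exact ⟨hop, y, x, hxy.symm, hy, hx, rfl⟩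
    have hUf : (⋃ l ∈ hΛf'.toFinset, {x | e y x = l}).Finite :=
      Finite.biUnion hΛf'.toFinset.finite_toSet hfl
    refine ⟨hUf.subset hsub, (ncard_le_ncard hsub hUf).trans ?_⟩
    refine (Finset.set_ncard_biUnion_le _ _).trans ?_
    refine Finset.sum_le_sum fun l hl => ?_
    rw [Finite.mem_toFinset] at hl
    have := (hdeg y y0 hyy l hl.1).2
    unfold ncard
    rw [this]
  obtain ⟨X, hX, hXc⟩ := hP.exists_subset_card_eq (b + 1)
  have hbadf : ((X : Set ℕ) ∪ ⋃ x ∈ X, {y | y ∈ Srt e q ∧ y ≠ x ∧ ¬ Op N (e x y)}).Finite :=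
    X.finite_toSet.union (Finite.biUnion X.finite_toSet fun x hx => hC x (hX hx))
  obtain ⟨y, hy, hyn⟩ := hQ.exists_notMem_finite hbadf
  rw [mem_union, not_or] at hyn
  obtain ⟨x, hxX, hxn⟩ : ∃ x ∈ X, x ∉ {x | x ∈ Srt e p ∧ x ≠ y ∧ ¬ Op N (e y x)} := by
    by_contra hc
    push Not at hc
    have h1 : (X : Set ℕ).ncard ≤ {x | x ∈ Srt e p ∧ x ≠ y ∧ ¬ Op N (e y x)}.ncard :=
      ncard_le_ncard (fun x hx => hc x hx) (hD y hy).1
    rw [ncard_coe_finset, hXc] at h1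
    have := (hD y hy).2
    omega
  have hxy : x ≠ y := by
    rintro rfl
    exact hyn.1 hxX
  have hxP : e x x = p := hX hxX
  have hyQ : e y y = q := hy
  have hop1 : Op N (e y x) := by
    by_contra hc
    exact hxn ⟨hxP, hxy, hc⟩
  have hop2 : Op N (e x y) := by
    by_contra hc
    apply hyn.2
    rw [mem_iUnion₂]
    exact ⟨x, hxX, hyQ, hxy.symm, hc⟩
  refine ⟨e x y, rl_of_mem he x y, ?_, ?_, ?_, hop2, ?_⟩
  · rw [← he.src x y, hxP]
  · rw [← he.rev x y, ← he.src y x, hyQ]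
  · rw [he.dia]
    exact hxy
  · rw [← he.rev x y]
    exact hop1

end Pool.Agent.H72.CQ
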