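import Pool.Agent.H71.CQ.Basic

/-!
# One more label
-/

set_option autoImplicit false

open Set

namespace Pool.Agent.H72.CQ

open Pool.Agent.H71.CQ

theorem pf_RBA : T_RBA := by
  classical
  intro L N _ e he p q a ha x y hxy hnone l hl hx hy
  have hne : x ≠ y := hxy.1
  have hrr : N.rev (N.rev l) = l := by
    obtain ⟨x1, y1, -, -, -, rfl⟩ := hl
    exact he.toCoh.rev_rev x1 y1
  have hnone' : a y x = none := by
    by_contra hc
    obtain ⟨l', hl'⟩ := Option.ne_none_iff_exists'.1 hc
    have := ha.rev _ _ _ hl'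
    rw [hnone] at this
    cases this
  obtain ⟨b, hb⟩ : ∃ b : ℕ → ℕ → Option L, b = fun z w => if z = x ∧ w = y then some l else
    if z = y ∧ w = x then some (N.rev l) else a z w := ⟨_, rfl⟩
  have hbxy : b x y = some l := by
    rw [hb]
    simp
  have hbyx : b y x = some (N.rev l) := by
    rw [hb]
    simp [hne, hne.symm]
  have hbo : ∀ z w, ¬ (z = x ∧ w = y) → ¬ (z = y ∧ w = x) → b z w = a z w := by
    intro z w h1 h2
    rw [hb]
    simp only [h1, h2, if_false]
  have hcase : ∀ z w, (z = x ∧ w = y) ∨ (z = y ∧ w = x) ∨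
      (¬ (z = x ∧ w = y) ∧ ¬ (z = y ∧ w = x)) := by
    intro z w
    tauto
  have hcell : Cell e p q y x := by
    obtain ⟨h1, h2⟩ := hxy
    refine ⟨h1.symm, ?_⟩
    tauto
  have hpsb : Psb e y x (N.rev l) := by
    obtain ⟨x1, y1, h1, h2, h3, rfl⟩ := hl
    exact ⟨y1, x1, h1.symm, h3, h2, he.rev x1 y1⟩
  have key : ∀ (z w : ℕ) (m m' : L), (∀ v, v ≠ w → b z v = a z v) → b z w = some m →
      a z w = none → (¬ Op N m → {v | a z v = some m}.encard < {v | e z v = m}.encard) →
      ¬ Op N m' → {v | b z v = some m'}.encard ≤ {v | e z v = m'}.encard := by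
    intro z w m m' h1 h2 h3 h4 h5
    by_cases hm : m' = m
    · subst hm
      have hset : {v | b z v = some m'} = insert w {v | a z v = some m'} := by
        ext v
        simp only [mem_setOf_eq, mem_insert_iff]
        by_cases hv : v = w
        · subst hv
          simp [h2]
        · rw [h1 v hv]
          simp [hv]
      rw [hset, encard_insert_of_notMem (by simp [h3])]
      exact Order.add_one_le_of_lt (h4 h5)
    · have hset : {v | b z v = some m'} = {v | a z v = some m'} := by
        ext v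
        simp only [mem_setOf_eq]
        by_cases hv : v = w
        · subst hv
          rw [h2, h3]
          simp only [Option.some.injEq, reduceCtorEq, iff_false]
          exact fun e => hm e.symm
        · rw [h1 v hv]
      rw [hset]
      exact ha.cap z m' h5
  refine ⟨b, ⟨?_, ?_, ?_, ?_, ?_⟩, ?_, hbxy, ?_⟩
  · refine (ha.fin.union (({(x, y), (y, x)} : Set (ℕ × ℕ)).toFinite)).subset ?_
    rintro ⟨z, w⟩ hzw
    rcases hcase z w with ⟨rfl, rfl⟩ | ⟨rfl, rfl⟩ | ⟨h1, h2⟩
    · exact Or.inr (Or.inl rfl)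
    · exact Or.inr (Or.inr rfl)
    · left
      rw [mem_setOf_eq, hbo _ _ h1 h2] at hzw
      exact hzw
  · intro z w l' h
    rcases hcase z w with ⟨rfl, rfl⟩ | ⟨rfl, rfl⟩ | ⟨h1, h2⟩
    · exact hxy
    · exact hcell
    · rw [hbo _ _ h1 h2] at h
      exact ha.cell _ _ _ h
  · intro z w l' h
    rcases hcase z w with ⟨rfl, rfl⟩ | ⟨rfl, rfl⟩ | ⟨h1, h2⟩
    · rw [hbxy] at h
      obtain rfl := Option.some.inj h
      exact hbyx
    · rw [hbyx] at h
      obtain rfl := Option.some.inj h
      rw [hrr]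
      exact hbxy
    · rw [hbo _ _ h1 h2] at h
      rw [hbo w z (fun e => h2 ⟨e.2, e.1⟩) (fun e => h1 ⟨e.2, e.1⟩)]
      exact ha.rev _ _ _ h
  · intro z w l' h
    rcases hcase z w with ⟨rfl, rfl⟩ | ⟨rfl, rfl⟩ | ⟨h1, h2⟩
    · rw [hbxy] at h
      obtain rfl := Option.some.inj h
      exact hl
    · rw [hbyx] at h
      obtain rfl := Option.some.inj h
      exact hpsb
    · rw [hbo _ _ h1 h2] at h
      exact ha.psb _ _ _ h
  · intro z l' hl'
    by_cases hzx : z = x
    · subst hzx
      exact key z y l l' (fun v hv => hbo _ _ (fun e => hv e.2) (fun e => hne e.1)) hbxy hnone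
        hx hl'
    · by_cases hzy : z = y
      · subst hzy
        exact key z x (N.rev l) l' (fun v hv => hbo _ _ (fun e => hzx e.1) (fun e => hv e.2))
          hbyx hnone' hy hl'
      · have hset : {v | b z v = some l'} = {v | a z v = some l'} := by
          ext v
          simp only [mem_setOf_eq]
          rw [hbo _ _ (fun e => hzx e.1) (fun e => hzy e.1)]
        rw [hset]
        exact ha.cap z l' hl'
  · intro z w l' h
    rcases hcase z w with ⟨rfl, rfl⟩ | ⟨rfl, rfl⟩ | ⟨h1, h2⟩
    · rw [hnone] at h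
      cases h
    · rw [hnone'] at h
      cases h
    · rw [hbo _ _ h1 h2]
      exact h
  · intro z w h
    rcases hcase z w with h3 | h3 | ⟨h1, h2⟩
    · exact Or.inr (Or.inl h3)
    · exact Or.inr (Or.inr h3)
    · rw [hbo _ _ h1 h2] at h
      exact Or.inl h

end Pool.Agent.H72.CQ
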